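import Pool.Agent.Helper39.ETC.G1011
import Pool.Agent.Helper39.ETC.G49
import Pool.Agent.Helper82.ETC.S3
import Pool.Agent.Helper88.ETC.F123
import Pool.Agent.Helper17.ETC.H1

/-!
# ETC-H2: the local-global principle for `H²` (dévissage)

Statement by helper37; proof: helper7.
-/

set_option autoImplicit false

namespace Pool.Helper37.ETC

variable {p : ℕ} [Fact p.Prime] {G K : Type} [Group G] [TopologicalSpace G]
  [IsTopologicalGroup G] [CompactSpace G] [T2Space G] [TotallyDisconnectedSpace G] [Field K]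
  [MulSemiringAction G K] {ζ : K}

/-- coboundaries can be pulled back. -/
private theorem h2_cob_comap {H H' : Type*} [Group H] [TopologicalSpace H] [Group H']
    [TopologicalSpace H'] {c : H → H → ZMod p} (h : IsCob p c) (f : H' → H) (hf : Continuous f)
    (hm : ∀ x y, f (x * y) = f x * f y) : IsCob p (fun σ τ : H' => c (f σ) (f τ)) := by
  obtain ⟨g, hg, h1⟩ := h
  refine ⟨fun σ => g (f σ), hg.comp_continuous hf, fun σ τ => ?_⟩
  simp only [h1, hm]

private theorem h2_coc_comap {H H' : Type*} [Group H] [TopologicalSpace H] [Group H']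
    [TopologicalSpace H'] {c : H → H → ZMod p} (h : IsCoc p c) (f : H' → H) (hf : Continuous f)
    (hm : ∀ x y, f (x * y) = f x * f y) : IsCoc p (fun σ τ : H' => c (f σ) (f τ)) := by
  refine ⟨fun ρ σ τ => ?_, ?_⟩
  · have := h.1 (f ρ) (f σ) (f τ)
    simp only [hm]
    exact this
  · exact h.2.comp_continuous (f := fun q : H' × H' => (f q.1, f q.2))
      ((hf.comp continuous_fst).prodMk (hf.comp continuous_snd))

private theorem h2_cob_sub {H : Type*} [Group H] [TopologicalSpace H] {c d : H → H → ZMod p}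
    (h : IsCob p c) (h' : IsCob p d) : IsCob p (fun σ τ => c σ τ - d σ τ) := by
  obtain ⟨f, hf, h1⟩ := h
  obtain ⟨g, hg, h2⟩ := h'
  refine ⟨fun σ => f σ - g σ, hf.sub hg, fun σ τ => ?_⟩
  simp only [h1, h2]
  ring

private theorem h2_cob_add {H : Type*} [Group H] [TopologicalSpace H] {c d : H → H → ZMod p}
    (h : IsCob p c) (h' : IsCob p d) : IsCob p (fun σ τ => c σ τ + d σ τ) := by
  obtain ⟨f, hf, h1⟩ := h
  obtain ⟨g, hg, h2⟩ := h'
  refine ⟨fun σ => f σ + g σ, hf.add hg, fun σ τ => ?_⟩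
  simp only [h1, h2]
  ring

/-- one step of the dévissage -/
private theorem h2_step (Gd : Good p G K ζ) (hfin : FinH1 p G) {χ : G → ZMod p} (hχ : IsCh p χ)
    {c : G → G → ZMod p} (hc : IsCoc p c)
    (hv : ∀ O : ValuationSubring K, O ≠ ⊤ → IsCob p (fun σ τ : Dec G O => c σ τ))
    (ho : ∀ g : G, g * g = 1 → g ≠ 1 → IsCob p (fun σ τ : Subgroup.zpowers g => c σ τ))
    (h : ∃ f : G → ZMod p, IsLocallyConstant f ∧
      ∀ σ τ, χ σ = 0 → χ τ = 0 → c σ τ = f σ + f τ - f (σ * τ)) :
    IsCob p c := by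
  obtain ⟨a, ha, ha0, hka⟩ := kum_surj Gd hχ
  obtain ⟨b, hb, hb0, ψ, hkb, hcob⟩ := sym_of_ker Gd ha ha0 hka hc h
  have h1 : IsCob p (fun σ τ => χ σ * ψ τ) := by
    refine hpsym Gd hfin ha ha0 hb hb0 hka hkb ?_ ?_
    · intro O hO
      have h2 := h2_cob_comap hcob (fun x : Dec G O => (x : G)) continuous_subtype_val
        (fun x y => rfl)
      have h3 := h2_cob_sub (hv O hO) h2
      convert h3 using 3
      ring
    · intro g hg hg1
      have h2 := h2_cob_comap hcob (fun x : Subgroup.zpowers g => (x : G)) continuous_subtype_val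
        (fun x y => rfl)
      obtain ⟨f, -, h3⟩ := h2_cob_sub (ho g hg hg1) h2
      have hχ1 : χ 1 = 0 := by
        have := hχ.1 1 1
        rw [mul_one] at this
        simpa using this
      let γ : Subgroup.zpowers g := ⟨g, Subgroup.mem_zpowers g⟩
      have hγ : γ * γ = 1 := Subtype.ext hg
      have e1 := h3 1 1
      have e2 := h3 γ γ
      rw [hγ] at e2
      rw [mul_one] at e1
      have e1' : f 1 = 0 := by
        have : f 1 = c 1 1 - (c 1 1 - χ 1 * ψ 1) := by
          have := e1
          simp only [OneMemClass.coe_one, add_sub_cancel_right] at this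
          exact this.symm
        rw [this, hχ1]
        ring
      rw [e1'] at e2
      have e3 : χ g * ψ g = 2 * f γ := by
        have : c g g - (c g g - χ g * ψ g) = f γ + f γ - 0 := e2
        linear_combination this
      have e4 : 2 * χ g = 0 := by
        have := hχ.1 g g
        rw [hg, hχ1] at this
        linear_combination -this
      by_cases h2 : (2 : ZMod p) = 0
      · rw [h2, zero_mul] at e3
        exact mul_eq_zero.1 e3
      · left
        rcases mul_eq_zero.1 e4 with h5 | h5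
        · exact absurd h5 h2
        · exact h5
  have h2 := h2_cob_add hcob h1
  convert h2 using 3
  ring

/-- H2 (dévissage; uses H1, S3, F2, G10) -/
theorem hp (Gd : Good p G K ζ) (hfin : FinH1 p G) {c : G → G → ZMod p} (hc : IsCoc p c)
    (hv : ∀ O : ValuationSubring K, O ≠ ⊤ → IsCob p (fun σ τ : Dec G O => c σ τ))
    (ho : ∀ g : G, g * g = 1 → g ≠ 1 → IsCob p (fun σ τ : Subgroup.zpowers g => c σ τ)) :
    IsCob p c := by
  -- an open normal subgroup on which the cocycle is constant
  obtain ⟨N, hN⟩ : ∃ N : OpenNormalSubgroup G, ∀ σ ∈ N, ∀ τ ∈ N, c σ τ = c 1 1 := by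
    have h1 : IsOpen {q : G × G | c q.1 q.2 = c 1 1} :=
      hc.2.isOpen_fiber (c 1 1)
    rw [isOpen_prod_iff] at h1
    obtain ⟨u, v, hu, hv', h1u, h1v, huv⟩ := h1 1 1 rfl
    obtain ⟨N, hN⟩ := ProfiniteGrp.exist_openNormalSubgroup_sub_open_nhds_of_one
      (hu.inter hv') ⟨h1u, h1v⟩
    exact ⟨N, fun σ hσ τ hτ => huv (Set.mk_mem_prod (hN hσ).1 (hN hτ).2)⟩
  have hNopen : IsOpen ((N : Subgroup G) : Set G) := N.toOpenSubgroup.isOpen'
  have hNfin : (N : Subgroup G).FiniteIndex := by
    have := Subgroup.quotient_finite_of_isOpen (N : Subgroup G) hNopen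
    exact Subgroup.finiteIndex_of_finite_quotient
  have key : ∀ n : ℕ, ∀ U : Subgroup G, (N : Subgroup G) ≤ U → (N : Subgroup G).relIndex U = n →
      IsCob p (fun σ τ : U => c σ τ) := by
    intro n
    induction n using Nat.strong_induction_on with
    | _ n ih =>
    intro U hNU hn
    by_cases hUN : U ≤ (N : Subgroup G)
    · refine ⟨fun _ => c 1 1, IsLocallyConstant.const _, fun σ τ => ?_⟩
      have h1 := hN σ (hUN σ.2) τ (hUN τ.2)
      simp only [h1]
      ring
    have hUopen : IsOpen (U : Set G) := Subgroup.isOpen_mono hNU hNopen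
    have hUcl : IsClosed (U : Set G) := Subgroup.isClosed_of_isOpen U hUopen
    have : CompactSpace U := isCompact_iff_compactSpace.1 hUcl.isCompact
    have GdU : Good p U K ζ := Gd.sub U
    have hfinU : FinH1 p U := finH1_open Gd.pp hfin U hUopen
    have hD : ((N : Subgroup G).subgroupOf U) ≠ ⊤ := by
      intro h
      rw [Subgroup.subgroupOf_eq_top] at h
      exact hUN h
    have hDcl : IsClosed (((N : Subgroup G).subgroupOf U : Subgroup U) : Set U) := by
      have h1 : IsClosed ((N : Subgroup G) : Set G) := Subgroup.isClosed_of_isOpen _ hNopen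
      exact h1.preimage continuous_subtype_val
    obtain ⟨χ, hχ, ⟨σ₀, hσ₀⟩, hχN⟩ := exists_ch GdU.pp _ hDcl hD
    have hχ1 : χ 1 = 0 := by
      have := hχ.1 1 1
      rw [mul_one] at this
      simpa using this
    have hχinv : ∀ σ, χ σ = 0 → χ σ⁻¹ = 0 := by
      intro σ hσ
      have := hχ.1 σ σ⁻¹
      rw [mul_inv_cancel, hχ1, hσ, zero_add] at this
      exact this.symm
    -- the kernel
    let U₁ : Subgroup G :=
      { carrier := {g | ∃ h : g ∈ U, χ ⟨g, h⟩ = 0}
        mul_mem' := by
          rintro x y ⟨hx, hx'⟩ ⟨hy, hy'⟩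
          refine ⟨U.mul_mem hx hy, ?_⟩
          have := hχ.1 ⟨x, hx⟩ ⟨y, hy⟩
          rw [hx', hy', add_zero] at this
          exact this
        one_mem' := ⟨U.one_mem, hχ1⟩
        inv_mem' := by
          rintro x ⟨hx, hx'⟩
          exact ⟨U.inv_mem hx, hχinv _ hx'⟩ }
    have hU₁ : ∀ g, g ∈ U₁ ↔ ∃ h : g ∈ U, χ ⟨g, h⟩ = 0 := fun g => Iff.rfl
    have hU₁U : U₁ ≤ U := fun g hg => hg.1
    have hNU₁ : (N : Subgroup G) ≤ U₁ := fun g hg => ⟨hNU hg, hχN ⟨g, hNU hg⟩ hg⟩
    have hlt : (N : Subgroup G).relIndex U₁ < n := by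
      have h1 := Subgroup.relIndex_mul_relIndex (N : Subgroup G) U₁ U hNU₁ hU₁U
      rw [hn] at h1
      have h2 : n ≠ 0 := by
        rw [← hn]
        intro h0
        have h1 := Subgroup.relIndex_dvd_index_of_normal (N : Subgroup G) U
        rw [h0, zero_dvd_iff] at h1
        exact hNfin.index_ne_zero h1
      have h3 : U₁.relIndex U ≠ 1 := by
        intro h
        rw [Subgroup.relIndex_eq_one] at h
        obtain ⟨h4, h5⟩ := h σ₀.2
        exact hσ₀ h5
      have h4 : U₁.relIndex U ≠ 0 := by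
        intro h
        rw [h, mul_zero] at h1
        exact h2 h1.symm
      have h5 : (N : Subgroup G).relIndex U₁ ≠ 0 := by
        intro h
        rw [h, zero_mul] at h1
        exact h2 h1.symm
      rw [← h1]
      have h6 : 2 ≤ U₁.relIndex U := by omega
      nlinarith [Nat.pos_of_ne_zero h5]
    obtain ⟨f₁, hf₁, hf₁'⟩ := ih _ hlt U₁ hNU₁ rfl
    refine h2_step GdU hfinU hχ (h2_coc_comap hc (fun x : U => (x : G)) continuous_subtype_val
      (fun x y => rfl)) ?_ ?_ ?_
    · -- valuations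
      intro O hO
      have hmem : ∀ x : Dec U O, ((x : U) : G) ∈ Dec G O := by
        intro x y hy
        have h1 := x.2 y (fun c hc => ?_)
        · exact h1
        · obtain ⟨e, he, t, ht, h⟩ := hy c hc
          exact ⟨e, fun σ => he σ, t, ht, h⟩
      have h1 := h2_cob_comap (hv O hO) (fun x : Dec U O => (⟨((x : U) : G), hmem x⟩ : Dec G O))
        ((continuous_subtype_val.comp continuous_subtype_val).subtype_mk _) (fun x y => rfl)
      exact h1
    · intro g hg hg1
      have hg' : (g : G) * g = 1 := by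
        have := congrArg (fun x : U => (x : G)) hg
        exact this
      have hg1' : (g : G) ≠ 1 := fun h => hg1 (Subtype.ext h)
      have hmem : ∀ x : Subgroup.zpowers g, ((x : U) : G) ∈ Subgroup.zpowers (g : G) := by
        rintro ⟨x, n, rfl⟩
        exact ⟨n, by simp⟩
      have h1 := h2_cob_comap (ho g hg' hg1')
        (fun x : Subgroup.zpowers g => (⟨((x : U) : G), hmem x⟩ : Subgroup.zpowers (g : G)))
        ((continuous_subtype_val.comp continuous_subtype_val).subtype_mk _) (fun x y => rfl)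
      exact h1
    · classical
      refine ⟨fun σ => if h : χ σ = 0 then f₁ ⟨σ, ⟨σ.2, h⟩⟩ else 0, ?_, ?_⟩
      · rw [IsLocallyConstant.iff_exists_open]
        intro σ
        by_cases hσ : χ σ = 0
        · have h1 : IsOpen {x : U₁ | f₁ x = f₁ ⟨σ, ⟨σ.2, hσ⟩⟩} := hf₁.isOpen_fiber _
          obtain ⟨V, hV, hV'⟩ := isOpen_induced_iff.1 h1
          refine ⟨{x : U | (x : G) ∈ V ∧ χ x = 0}, ?_, ?_, ?_⟩
          · exact (hV.preimage continuous_subtype_val).inter (hχ.2.isOpen_fiber 0)
          · refine ⟨?_, hσ⟩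
            have : (⟨σ, ⟨σ.2, hσ⟩⟩ : U₁) ∈ Subtype.val ⁻¹' V := by
              rw [hV']
              rfl
            exact this
          · rintro x ⟨hx, hx0⟩
            rw [dif_pos hσ, dif_pos hx0]
            have : (⟨x, ⟨x.2, hx0⟩⟩ : U₁) ∈ {x : U₁ | f₁ x = f₁ ⟨σ, ⟨σ.2, hσ⟩⟩} := by
              rw [← hV']
              exact hx
            exact this
        · refine ⟨{x : U | χ x = χ σ}, hχ.2.isOpen_fiber _, rfl, ?_⟩
          intro x hx
          have hx0 : ¬ χ x = 0 := by
            rw [Set.mem_ofPred_eq] at hx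
            rwa [hx]
          rw [dif_neg hσ, dif_neg hx0]
      · intro σ τ hσ hτ
        have hστ : χ (σ * τ) = 0 := by rw [hχ.1, hσ, hτ, add_zero]
        simp only [hσ, hτ, hστ, dite_true]
        exact hf₁' ⟨σ, ⟨σ.2, hσ⟩⟩ ⟨τ, ⟨τ.2, hτ⟩⟩
  have h1 := key _ ⊤ le_top rfl
  have h2 := h2_cob_comap h1 (fun x : G => (⟨x, Subgroup.mem_top x⟩ : (⊤ : Subgroup G)))
    (continuous_id.subtype_mk _) (fun x y => rfl)
  exact h2

end Pool.Helper37.ETC
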